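import Mathlib

open Finset
open scoped Pointwise

namespace Pool.Agent.Results.MP_10cf1f_co.RectifiablePairs

/-- Three elements in the integers. -/
theorem int_three (A B : Finset ℤ) (n : ℕ) (hn : 1 ≤ n) (hA : A.card = n) (hB : B.card = n) :
    ∃ A' ⊆ A, A'.card ≤ 3 ∧ 2 * n - 1 ≤ (A' + B).card := by
  classical
  rcases Nat.lt_or_ge n 2 with h1 | h2
  · refine ⟨A, Subset.refl _, by omega, ?_⟩
    have hAne : A.Nonempty := by rw [← card_pos]; omega
    have hBne : B.Nonempty := by rw [← card_pos]; omega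
    have : 0 < (A + B).card := card_pos.mpr (hAne.add hBne)
    omega
  have hAne : A.Nonempty := by rw [← card_pos]; omega
  set a1 := A.min' hAne with ha1
  set a2 := A.max' hAne with ha2
  have ha1A : a1 ∈ A := A.min'_mem hAne
  have ha2A : a2 ∈ A := A.max'_mem hAne
  have hlt : a1 < a2 := by
    apply Finset.min'_lt_max'_of_card
    omega
  set m := a2 - a1 with hm
  have hmpos : 0 < m := by omega
  set R := B.image (fun b => b % m) with hR
  set T := B.filter (fun b => b + m ∉ B) with hT
  have hRT : R.card ≤ T.card := by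
    have : R ⊆ T.image (fun b => b % m) := by
      intro r hr
      rw [hR, mem_image] at hr
      obtain ⟨b, hb, hbr⟩ := hr
      set C := B.filter (fun b => b % m = r) with hC
      have hCne : C.Nonempty := ⟨b, by rw [hC, mem_filter]; exact ⟨hb, hbr⟩⟩
      have hmem0 := C.max'_mem hCne
      have hmem : C.max' hCne ∈ B ∧ (C.max' hCne) % m = r := mem_filter.mp hmem0
      rw [mem_image]
      refine ⟨C.max' hCne, ?_, hmem.2⟩
      rw [hT, mem_filter]
      refine ⟨hmem.1, ?_⟩
      intro hcon
      have h3 : C.max' hCne + m ∈ C := by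
        refine mem_filter.mpr ⟨hcon, ?_⟩
        rw [Int.add_emod_right]
        exact hmem.2
      have := C.le_max' _ h3
      omega
    calc R.card ≤ (T.image (fun b => b % m)).card := card_le_card this
      _ ≤ T.card := card_image_le
  -- first two translates
  set X1 := B.image (fun b => a1 + b) with hX1
  set X2 := T.image (fun b => a2 + b) with hX2
  have cX1 : X1.card = n := by
    rw [hX1, card_image_of_injective _ (add_right_injective a1), hB]
  have cX2 : X2.card = T.card := by
    rw [hX2, card_image_of_injective _ (add_right_injective a2)]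
  have d12 : Disjoint X1 X2 := by
    rw [disjoint_left]
    intro x hx hx'
    rw [hX1, mem_image] at hx
    rw [hX2, mem_image] at hx'
    obtain ⟨b, hb, rfl⟩ := hx
    obtain ⟨b', hb', he⟩ := hx'
    rw [hT, mem_filter] at hb'
    apply hb'.2
    have : b' + m = b := by omega
    rw [this]; exact hb
  rcases Nat.lt_or_ge R.card (n - 1) with hk | hk
  · -- third element
    set k := R.card with hkdef
    set A0 := A.erase a2 with hA0
    have cA0 : A0.card = n - 1 := by rw [hA0, card_erase_of_mem ha2A, hA]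
    have hrange : ∀ a ∈ A0, 0 ≤ a - a1 ∧ a - a1 < m := by
      intro a ha
      rw [hA0, mem_erase] at ha
      have h4 := A.min'_le a ha.2
      have h5 := A.le_max' a ha.2
      have h6 : a ≠ a2 := ha.1
      have h7 : a < a2 := lt_of_le_of_ne h5 h6
      constructor
      · have : a1 ≤ a := h4
        omega
      · omega
    have hex : ∃ a ∈ A0, n - 1 - k ≤ (B.filter (fun b => (b + (a - a1)) % m ∉ R)).card := by
      by_contra hno
      push Not at hno
      have hup : ∑ a ∈ A0, (B.filter (fun b => (b + (a - a1)) % m ∉ R)).card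
          ≤ ∑ a ∈ A0, (n - 2 - k) := by
        apply sum_le_sum
        intro a ha
        have := hno a ha
        omega
      have hdc : ∑ a ∈ A0, (B.filter (fun b => (b + (a - a1)) % m ∉ R)).card
          = ∑ b ∈ B, (A0.filter (fun a => (b + (a - a1)) % m ∉ R)).card := by
        simp only [card_filter]
        exact sum_comm
      have hlow : ∑ b ∈ B, (n - 1 - k) ≤
          ∑ b ∈ B, (A0.filter (fun a => (b + (a - a1)) % m ∉ R)).card := by
        apply sum_le_sum
        intro b _
        have hsplit := card_filter_add_card_filter_not (s := A0)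
          (fun a => (b + (a - a1)) % m ∈ R)
        have hin : (A0.filter (fun a => (b + (a - a1)) % m ∈ R)).card ≤ k := by
          rw [hkdef]
          apply card_le_card_of_injOn (fun a => (b + (a - a1)) % m)
          · intro a ha
            have := (mem_filter.mp ha).2
            exact this
          · intro a ha a' ha' he
            have h8 := hrange a (mem_filter.mp ha).1
            have h9 := hrange a' (mem_filter.mp ha').1
            simp only at he
            have h10 : (b + (a - a1)) ≡ (b + (a' - a1)) [ZMOD m] := he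
            have h11 : (a - a1) ≡ (a' - a1) [ZMOD m] := Int.ModEq.add_left_cancel' b h10
            have h12 : (a - a1) % m = (a' - a1) % m := h11
            rw [Int.emod_eq_of_lt h8.1 h8.2, Int.emod_eq_of_lt h9.1 h9.2] at h12
            omega
        rw [cA0] at hsplit
        omega
      rw [← hdc] at hlow
      have hfin := hlow.trans hup
      rw [sum_const, sum_const, smul_eq_mul, smul_eq_mul, hB, cA0] at hfin
      obtain ⟨j, hj⟩ : ∃ j, n - 1 - k = j + 1 := ⟨n - 2 - k, by omega⟩
      have hj2 : n - 2 - k = j := by omega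
      rw [hj, hj2] at hfin
      have : (n - 1) * j ≤ n * j := Nat.mul_le_mul_right _ (by omega)
      nlinarith
    obtain ⟨a3, ha3, hN⟩ := hex
    have ha3A : a3 ∈ A := by rw [hA0, mem_erase] at ha3; exact ha3.2
    set X3 := (B.filter (fun b => (b + (a3 - a1)) % m ∉ R)).image (fun b => a3 + b) with hX3
    have cX3 : X3.card = (B.filter (fun b => (b + (a3 - a1)) % m ∉ R)).card := by
      rw [hX3, card_image_of_injective _ (add_right_injective a3)]
    have d3 : Disjoint (X1 ∪ X2) X3 := by
      rw [disjoint_left]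
      intro x hx hx'
      rw [hX3, mem_image] at hx'
      obtain ⟨b, hb, rfl⟩ := hx'
      rw [mem_filter] at hb
      apply hb.2
      rw [mem_union] at hx
      rcases hx with hx | hx
      · rw [hX1, mem_image] at hx
        obtain ⟨b', hb', he⟩ := hx
        rw [hR, mem_image]
        refine ⟨b', hb', ?_⟩
        have : b' = b + (a3 - a1) := by omega
        rw [this]
      · rw [hX2, mem_image] at hx
        obtain ⟨b', hb', he⟩ := hx
        rw [hT, mem_filter] at hb'
        rw [hR, mem_image]
        refine ⟨b', hb'.1, ?_⟩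
        have : b + (a3 - a1) = b' + m := by omega
        simp only [this, Int.add_emod_right]
    refine ⟨{a1, a2, a3}, ?_, card_le_three, ?_⟩
    · intro x hx
      simp only [mem_insert, mem_singleton] at hx
      rcases hx with rfl | rfl | rfl
      · exact ha1A
      · exact ha2A
      · exact ha3A
    · have hsub : (X1 ∪ X2) ∪ X3 ⊆ {a1, a2, a3} + B := by
        intro x hx
        rw [mem_union, mem_union] at hx
        rcases hx with (hx | hx) | hx
        · rw [hX1, mem_image] at hx
          obtain ⟨b, hb, rfl⟩ := hx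
          exact add_mem_add (by simp) hb
        · rw [hX2, mem_image] at hx
          obtain ⟨b, hb, rfl⟩ := hx
          exact add_mem_add (by simp) (mem_filter.mp hb).1
        · rw [hX3, mem_image] at hx
          obtain ⟨b, hb, rfl⟩ := hx
          exact add_mem_add (by simp) (mem_filter.mp hb).1
      have hcard := card_le_card hsub
      rw [card_union_of_disjoint d3, card_union_of_disjoint d12, cX1, cX2, cX3] at hcard
      omega
  · refine ⟨{a1, a2}, ?_, ?_, ?_⟩
    · intro x hx
      simp only [mem_insert, mem_singleton] at hx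
      rcases hx with rfl | rfl
      · exact ha1A
      · exact ha2A
    · exact card_le_two.trans (by norm_num)
    · have hsub : (X1 ∪ X2) ⊆ {a1, a2} + B := by
        intro x hx
        rw [mem_union] at hx
        rcases hx with hx | hx
        · rw [hX1, mem_image] at hx
          obtain ⟨b, hb, rfl⟩ := hx
          exact add_mem_add (by simp) hb
        · rw [hX2, mem_image] at hx
          obtain ⟨b, hb, rfl⟩ := hx
          exact add_mem_add (by simp) (mem_filter.mp hb).1
      have hcard := card_le_card hsub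
      rw [card_union_of_disjoint d12, cX1, cX2] at hcard
      omega

/-- Rectification: for `16^n < p` two `n`-subsets of `ZMod p` are, up to a dilation, inside
`(-p/4, p/4)`. -/
theorem rectify (p : ℕ) [Fact p.Prime] (n : ℕ) (hp : 16 ^ n < p) (A B : Finset (ZMod p))
    (hA : A.card = n) (hB : B.card = n) :
    ∃ t : ZMod p, t ≠ 0 ∧ ∃ f : ZMod p → ℤ, ∀ x ∈ A ∪ B,
      ((f x : ℤ) : ZMod p) = t * x ∧ 4 * |f x| < p := by
  classical
  have hp0 : 0 < p := (Fact.out : p.Prime).pos
  -- cells
  let g : ℕ → ((A ∪ B : Finset (ZMod p)) → Fin 4) := fun q x =>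
    ⟨4 * ((q : ZMod p) * (x : ZMod p)).val / p, by
      rw [Nat.div_lt_iff_lt_mul hp0]
      have := ZMod.val_lt ((q : ZMod p) * (x : ZMod p))
      omega⟩
  have hcard : Fintype.card ((A ∪ B : Finset (ZMod p)) → Fin 4) < (Finset.range p).card := by
    rw [Fintype.card_fun, Fintype.card_fin, Fintype.card_coe, card_range]
    have h1 : (A ∪ B).card ≤ 2 * n := by
      have := card_union_le A B
      omega
    calc 4 ^ (A ∪ B).card ≤ 4 ^ (2 * n) := Nat.pow_le_pow_right (by norm_num) h1
      _ = 16 ^ n := by rw [pow_mul]; norm_num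
      _ < p := hp
  obtain ⟨q, hq, q', hq', hne, heq⟩ := Finset.exists_ne_map_eq_of_card_lt_of_maps_to
    (s := Finset.range p) (t := (Finset.univ : Finset ((A ∪ B : Finset (ZMod p)) → Fin 4)))
    (by rwa [Finset.card_univ]) (f := g) (fun _ _ => by simp)
  rw [mem_range] at hq hq'
  refine ⟨(q : ZMod p) - q', ?_, fun x => (((q : ZMod p) * x).val : ℤ) - ((q' : ZMod p) * x).val,
    ?_⟩
  · intro h
    rw [sub_eq_zero] at h
    have := (ZMod.natCast_eq_natCast_iff' q q' p).mp h
    rw [Nat.mod_eq_of_lt hq, Nat.mod_eq_of_lt hq'] at this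
    exact hne this
  · intro x hx
    refine ⟨?_, ?_⟩
    · push_cast
      rw [ZMod.natCast_zmod_val, ZMod.natCast_zmod_val]
      ring
    · have h2 := congrFun heq ⟨x, hx⟩
      have h3 : 4 * ((q : ZMod p) * x).val / p = 4 * ((q' : ZMod p) * x).val / p := by
        have := congrArg Fin.val h2
        exact this
      have e1 := Nat.div_add_mod (4 * ((q : ZMod p) * x).val) p
      have e2 := Nat.div_add_mod (4 * ((q' : ZMod p) * x).val) p
      have m1 := Nat.mod_lt (4 * ((q : ZMod p) * x).val) hp0
      have m2 := Nat.mod_lt (4 * ((q' : ZMod p) * x).val) hp0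
      rw [h3] at e1
      have h5 : |(((q : ZMod p) * x).val : ℤ) - ((q' : ZMod p) * x).val| * 4 < p := by
        rcases abs_cases ((((q : ZMod p) * x).val : ℤ) - ((q' : ZMod p) * x).val) with h | h
        · rw [h.1]; omega
        · rw [h.1]; omega
      linarith

/-- Three elements in `ZMod p` for sets with integer lifts in `(-p/4, p/4)`. -/
theorem three_of_lift (p : ℕ) [Fact p.Prime] (n : ℕ) (hn : 1 ≤ n)
    (A B : Finset (ZMod p)) (hA : A.card = n) (hB : B.card = n)
    (t u v : ZMod p) (ht : t ≠ 0) (f g : ZMod p → ℤ)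
    (hf : ∀ x ∈ A, ((f x : ℤ) : ZMod p) = t * x + u ∧ 4 * |f x| < p)
    (hg : ∀ x ∈ B, ((g x : ℤ) : ZMod p) = t * x + v ∧ 4 * |g x| < p) :
    ∃ A' ⊆ A, A'.card ≤ 3 ∧ 2 * n - 1 ≤ (A' + B).card := by
  classical
  have hinjA : Set.InjOn f A := by
    intro x hx y hy h
    have h1 := (hf x hx).1
    have h2 := (hf y hy).1
    rw [h, h2] at h1
    exact (mul_left_cancel₀ ht (add_right_cancel h1)).symm
  have hinjB : Set.InjOn g B := by
    intro x hx y hy h
    have h1 := (hg x hx).1
    have h2 := (hg y hy).1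
    rw [h, h2] at h1
    exact (mul_left_cancel₀ ht (add_right_cancel h1)).symm
  obtain ⟨A1, hA1, hc, hs⟩ := int_three (A.image f) (B.image g) n hn
    (by rw [card_image_of_injOn hinjA, hA]) (by rw [card_image_of_injOn hinjB, hB])
  refine ⟨A.filter (fun x => f x ∈ A1), filter_subset _ _, ?_, ?_⟩
  · refine le_trans ?_ hc
    apply card_le_card_of_injOn f
    · intro x hx
      exact (mem_filter.mp hx).2
    · intro x hx y hy h
      exact hinjA (mem_filter.mp hx).1 (mem_filter.mp hy).1 h
  · refine hs.trans ?_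
    apply card_le_card_of_injOn (fun z : ℤ => t⁻¹ * ((z : ZMod p) - u - v))
    · intro z hz
      obtain ⟨u', hu, v', hv, rfl⟩ := mem_add.mp hz
      obtain ⟨a, ha, rfl⟩ := mem_image.mp (hA1 hu)
      obtain ⟨b, hb, rfl⟩ := mem_image.mp hv
      have h1 := (hf a ha).1
      have h2 := (hg b hb).1
      have h3 : t⁻¹ * (((f a + g b : ℤ) : ZMod p) - u - v) = a + b := by
        push_cast
        rw [h1, h2]
        have : t * a + u + (t * b + v) - u - v = t * (a + b) := by ring
        rw [this, inv_mul_cancel_left₀ ht]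
      simp only [h3]
      exact add_mem_add (mem_filter.mpr ⟨ha, hu⟩) hb
    · intro z hz z' hz' h
      have key : ∀ w ∈ A1 + B.image g, 2 * |w| < p := by
        intro w hw
        obtain ⟨u', hu, v', hv, rfl⟩ := mem_add.mp hw
        obtain ⟨a, ha, rfl⟩ := mem_image.mp (hA1 hu)
        obtain ⟨b, hb, rfl⟩ := mem_image.mp hv
        have h1 := (hf a ha).2
        have h2 := (hg b hb).2
        have h3 := abs_add_le (f a) (g b)
        linarith
      have k1 := key z hz
      have k2 := key z' hz'
      have h40 : ((z : ZMod p) - u - v) = ((z' : ZMod p) - u - v) :=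
        mul_left_cancel₀ (inv_ne_zero ht) h
      have h4 : (z : ZMod p) = (z' : ZMod p) := by
        have := sub_left_injective h40
        exact sub_left_injective this
      rw [ZMod.intCast_eq_intCast_iff_dvd_sub] at h4
      have h5 : |z' - z| < p := by
        have := abs_sub z' z
        linarith
      have h6 := Int.eq_zero_of_abs_lt_dvd h4 h5
      omega

/-- `A` and `B` lie, after one common dilation and two translations, in `(-p/4, p/4)`. -/
def Rectifiable (p : ℕ) (A B : Finset (ZMod p)) : Prop :=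
  ∃ t u v : ZMod p, t ≠ 0 ∧ (∀ x ∈ A, 4 * |(t * x + u).valMinAbs| < p) ∧
    (∀ x ∈ B, 4 * |(t * x + v).valMinAbs| < p)

/-- The pair `(c, c₁)` is admissible for the pairs `(A, B)` of the class `K`. -/
def Admissible (K : (p : ℕ) → Finset (ZMod p) → Finset (ZMod p) → Prop)
    (c : ℝ) (c₁ : ℕ → ℝ) : Prop :=
  ∀ p : ℕ, p.Prime → ∀ n : ℕ, 1 ≤ n → 3 * n ≤ p →
    ∀ A B : Finset (ZMod p), A.card = n → B.card = n → K p A B →
      ∃ A' ⊆ A, ∃ B' ⊆ B, (A'.card : ℝ) ≤ c₁ n ∧ (B'.card : ℝ) ≤ c * n / c₁ n ∧
        2 * n - 1 ≤ (A' + B').card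

/-- The constant `c` has the balanced property for the pairs `(A, B)` of the class `K`. -/
def Balanced (K : (p : ℕ) → Finset (ZMod p) → Finset (ZMod p) → Prop) (c : ℝ) : Prop :=
  ∀ p : ℕ, p.Prime → ∀ n : ℕ, 1 ≤ n → 3 * n ≤ p →
    ∀ A B : Finset (ZMod p), A.card = n → B.card = n → K p A B →
      ∃ A' ⊆ A, ∃ B' ⊆ B, A'.card = B'.card ∧ (A'.card : ℝ) ≤ √(c * n) ∧
        2 * n - 1 ≤ (A' + B').card

theorem rectifiable_of_large (p : ℕ) (hp : p.Prime) (A B : Finset (ZMod p))
    (hAB : A.card = B.card) (hlarge : 16 ^ A.card < p) : Rectifiable p A B := by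
  have : Fact p.Prime := ⟨hp⟩
  obtain ⟨t, ht, f, hf⟩ := rectify p A.card hlarge A B rfl hAB.symm
  have key : ∀ x ∈ A ∪ B, 4 * |(t * x + 0).valMinAbs| < p := by
    intro x hx
    have h1 := hf x hx
    have h2 : (t * x + 0).valMinAbs = f x := by
      rw [ZMod.valMinAbs_spec]
      refine ⟨by rw [add_zero]; exact h1.1.symm, ?_⟩
      have h3 := h1.2
      rw [Set.mem_Ioc]
      rcases abs_cases (f x) with h | h <;> rw [h.1] at h3 <;> constructor <;> omega
    rw [h2]
    exact h1.2
  exact ⟨t, 0, 0, ht, fun x hx => key x (mem_union_left _ hx),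
    fun x hx => key x (mem_union_right _ hx)⟩

/-- No constant below `16/5` is balanced. -/
theorem balanced_lower (P : ℕ → ℕ) (c : ℝ)
    (h : Balanced (fun p A B => Rectifiable p A B ∧ P A.card ≤ p) c) : 16 / 5 ≤ c := by
  classical
  by_contra hc
  push Not at hc
  obtain ⟨p, hpge, hp⟩ := Nat.exists_infinite_primes (max (P 5) 17)
  have : Fact p.Prime := ⟨hp⟩
  have hp17 : 17 ≤ p := le_trans (le_max_right _ _) hpge
  have hinj : ∀ i < p, ∀ j < p, ((i : ℕ) : ZMod p) = ((j : ℕ) : ZMod p) → i = j := by
    intro i hi j hj he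
    have := (ZMod.natCast_eq_natCast_iff' i j p).mp he
    rwa [Nat.mod_eq_of_lt hi, Nat.mod_eq_of_lt hj] at this
  set A : Finset (ZMod p) := (Finset.range 5).image (fun i => ((i : ℕ) : ZMod p)) with hA
  have cA : A.card = 5 := by
    rw [hA, card_image_of_injOn, card_range]
    intro i hi j hj he
    have hi' : i < 5 := by simpa using hi
    have hj' : j < 5 := by simpa using hj
    exact hinj i (by omega) j (by omega) he
  have hrec : ∀ x ∈ A, 4 * |((1 : ZMod p) * x + 0).valMinAbs| < p := by
    intro x hx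
    rw [hA, mem_image] at hx
    obtain ⟨i, hi, rfl⟩ := hx
    rw [mem_range] at hi
    have h2 : ((1 : ZMod p) * ((i : ℕ) : ZMod p) + 0).valMinAbs = (i : ℤ) := by
      rw [ZMod.valMinAbs_spec]
      refine ⟨by rw [add_zero, one_mul]; push_cast; rfl, ?_⟩
      rw [Set.mem_Ioc]
      constructor <;> omega
    rw [h2, abs_of_nonneg (by omega)]
    omega
  obtain ⟨A', hA', B', hB', hcard, hsq, hsum⟩ := h p hp 5 (by norm_num) (by omega)
    A A cA cA ⟨⟨1, 0, 0, one_ne_zero, hrec, hrec⟩,
      by rw [cA]; exact le_trans (le_max_left _ _) hpge⟩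
  have h3 : A'.card ≤ 3 := by
    have h4 : √(c * (5 : ℕ)) < 4 := by
      rw [Real.sqrt_lt' (by norm_num)]
      push_cast
      linarith
    have h5 : (A'.card : ℝ) < 4 := lt_of_le_of_lt hsq h4
    have h6 : A'.card < 4 := by exact_mod_cast h5
    omega
  have hmemA : ∀ x ∈ A, ∃ i < 5, ((i : ℕ) : ZMod p) = x := by
    intro x hx
    rw [hA, mem_image] at hx
    obtain ⟨i, hi, rfl⟩ := hx
    exact ⟨i, mem_range.mp hi, rfl⟩
  -- A' + B' is all of {0,...,8}
  set S : Finset (ZMod p) := (Finset.range 9).image (fun i => ((i : ℕ) : ZMod p)) with hS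
  have hsub : A' + B' ⊆ S := by
    intro x hx
    obtain ⟨u, hu, v, hv, rfl⟩ := mem_add.mp hx
    obtain ⟨i, hi, rfl⟩ := hmemA u (hA' hu)
    obtain ⟨j, hj, rfl⟩ := hmemA v (hB' hv)
    rw [hS, mem_image]
    exact ⟨i + j, mem_range.mpr (by omega), by push_cast; rfl⟩
  have cS : S.card ≤ 9 := by
    rw [hS]
    exact card_image_le.trans (by simp)
  have hAll : A' + B' = S := eq_of_subset_of_card_le hsub (by omega)
  have h0 : ((0 : ℕ) : ZMod p) ∈ A' + B' := by
    rw [hAll, hS, mem_image]
    exact ⟨0, by simp, rfl⟩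
  have h8 : ((8 : ℕ) : ZMod p) ∈ A' + B' := by
    rw [hAll, hS, mem_image]
    exact ⟨8, by simp, rfl⟩
  have z1 : ((0 : ℕ) : ZMod p) ∈ A' ∧ ((0 : ℕ) : ZMod p) ∈ B' := by
    obtain ⟨u, hu, v, hv, he⟩ := mem_add.mp h0
    obtain ⟨i, hi, rfl⟩ := hmemA u (hA' hu)
    obtain ⟨j, hj, rfl⟩ := hmemA v (hB' hv)
    have := hinj (i + j) (by omega) 0 (by omega) (by rw [← he]; push_cast; rfl)
    have hi0 : i = 0 := by omega
    have hj0 : j = 0 := by omega
    subst hi0; subst hj0
    exact ⟨hu, hv⟩
  have z2 : ((4 : ℕ) : ZMod p) ∈ A' ∧ ((4 : ℕ) : ZMod p) ∈ B' := by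
    obtain ⟨u, hu, v, hv, he⟩ := mem_add.mp h8
    obtain ⟨i, hi, rfl⟩ := hmemA u (hA' hu)
    obtain ⟨j, hj, rfl⟩ := hmemA v (hB' hv)
    have := hinj (i + j) (by omega) 8 (by omega) (by rw [← he]; push_cast; rfl)
    have hi0 : i = 4 := by omega
    have hj0 : j = 4 := by omega
    subst hi0; subst hj0
    exact ⟨hu, hv⟩
  have hne04 : ((0 : ℕ) : ZMod p) ≠ ((4 : ℕ) : ZMod p) := by
    intro he
    have := hinj 0 (by omega) 4 (by omega) he
    omega
  -- collision
  have hsub2 : A' + B' ⊆ ((A' ×ˢ B').erase (((0 : ℕ) : ZMod p), ((4 : ℕ) : ZMod p))).image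
      (fun z => z.1 + z.2) := by
    intro x hx
    obtain ⟨u, hu, v, hv, rfl⟩ := mem_add.mp hx
    rw [mem_image]
    by_cases hh : (u, v) = (((0 : ℕ) : ZMod p), ((4 : ℕ) : ZMod p))
    · refine ⟨(((4 : ℕ) : ZMod p), ((0 : ℕ) : ZMod p)), ?_, ?_⟩
      · rw [mem_erase, mem_product]
        refine ⟨?_, z2.1, z1.2⟩
        intro he
        exact hne04 (Prod.ext_iff.mp he).1.symm
      · have := Prod.ext_iff.mp hh
        simp only at this
        rw [this.1, this.2]
        ring
    · exact ⟨(u, v), mem_erase.mpr ⟨hh, mem_product.mpr ⟨hu, hv⟩⟩, rfl⟩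
  have hle := card_le_card hsub2
  have hle2 := hle.trans card_image_le
  rw [card_erase_of_mem (mem_product.mpr ⟨z1.1, z2.2⟩), card_product, ← hcard] at hle2
  have h9 : A'.card * A'.card ≤ 3 * 3 := Nat.mul_le_mul h3 h3
  omega

/-- Every pair with `16 ^ n < p` is rectifiable; for rectifiable pairs `(3, 3)` is admissible, and
no constant below `16/5` is balanced, even if `p` is moreover at least any given function of `n`. -/
theorem result :
    (∀ p : ℕ, p.Prime → ∀ A B : Finset (ZMod p), A.card = B.card → 16 ^ A.card < p →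
      Rectifiable p A B) ∧
    Admissible Rectifiable 3 (fun _ => 3) ∧
    (∀ (P : ℕ → ℕ) (c : ℝ),
      Balanced (fun p A B => Rectifiable p A B ∧ P A.card ≤ p) c → 16 / 5 ≤ c) := by
  classical
  refine ⟨rectifiable_of_large, ?_, balanced_lower⟩
  intro p hp n hn _ A B hA hB hR
  have : Fact p.Prime := ⟨hp⟩
  obtain ⟨t, u, v, ht, h1, h2⟩ := hR
  obtain ⟨A', hA', hc, hs⟩ := three_of_lift p n hn A B hA hB t u v ht
    (fun x => (t * x + u).valMinAbs) (fun x => (t * x + v).valMinAbs)
    (fun x hx => ⟨ZMod.coe_valMinAbs _, h1 x hx⟩)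
    (fun x hx => ⟨ZMod.coe_valMinAbs _, h2 x hx⟩)
  refine ⟨A', hA', B, Subset.refl _, ?_, ?_, hs⟩
  · change (A'.card : ℝ) ≤ 3
    exact_mod_cast hc
  · change (B.card : ℝ) ≤ 3 * (n : ℝ) / 3
    rw [hB]
    linarith

end Pool.Agent.Results.MP_10cf1f_co.RectifiablePairs
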